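import Pool.Agent.Helper5.PD.Tail

/-!
# Two-sided size of the predecessor sets: short paths, from the count and the recursion
-/

set_option autoImplicit false

namespace Pool.Agent.Helper5.PD

open Pool.Agent.Helper68.Moeller Pool.Agent.Helper91 Pool.Agent.Helper8 Pool.Agent.Helper8.ND Pool.Agent.Helper28 Filter
  Topology

/-- invariance beyond `Y` -/
theorem tinv_Sz {d m : ℕ} {r : ℤ → ℤ} {a : ℤ} {z Y : ℝ} (hzY : z ≤ Y) : TInv d m r (Sz d m r a z Y) Y := by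
  intro n hn
  constructor
  · rintro ⟨t, ht, hz, i, hi, hY⟩
    cases t with
    | zero =>
      have h0 : i = 0 := by omega
      subst h0
      rw [Function.iterate_zero, id_eq] at hY
      linarith
    | succ t =>
      refine ⟨t, by rwa [Function.iterate_succ_apply] at ht, fun j hj => ?_, ?_⟩
      · have h2 := hz (j + 1) (by omega)
        rwa [Function.iterate_succ_apply] at h2
      · cases i with
        | zero =>
          rw [Function.iterate_zero, id_eq] at hY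
          linarith
        | succ i => exact ⟨i, by omega, by rwa [Function.iterate_succ_apply] at hY⟩
  · rintro ⟨t, ht, hz, i, hi, hY⟩
    refine ⟨t + 1, by rwa [Function.iterate_succ_apply], fun j hj => ?_, i + 1, by omega, by rwa [Function.iterate_succ_apply]⟩
    cases j with
    | zero =>
      rw [Function.iterate_zero, id_eq]
      exact lt_of_le_of_lt hzY hn
    | succ j =>
      rw [Function.iterate_succ_apply]
      exact hz j (by omega)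

theorem cL_dyadic {G : Set ℤ} {y δ : ℝ} (hδ : 0 ≤ δ) (hy : 1 ≤ y) (h : ∀ A, y ≤ A → fd G A ≤ δ) (k : ℕ) :
    cL G (2 ^ k * y) ≤ cL G y + δ * (2 ^ k * y) := by
  induction k with
  | zero =>
    rw [pow_zero, one_mul]
    have : 0 ≤ δ * y := by positivity
    linarith
  | succ k ih =>
    have h1 : y ≤ 2 ^ k * y := le_mul_of_one_le_left (by linarith) (one_le_pow₀ (by norm_num))
    have h2 := cL_two_mul G (hy.trans h1)
    have e : (2 : ℝ) ^ (k + 1) * y = 2 * (2 ^ k * y) := by ring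
    rw [e, h2]
    have h3 := mul_le_mul_of_nonneg_left (h _ h1) (by linarith : (0 : ℝ) ≤ 2 ^ k * y)
    linarith

/-- from the windows to the density -/
theorem cN_of_fd {G : Set ℤ} {δ A₀ : ℝ} (hδ : 0 ≤ δ) (hA : 1 ≤ A₀) (h : ∀ A, A₀ ≤ A → fd G A ≤ δ) {ε : ℝ} (hε : 0 < ε) :
    ∀ᶠ x : ℝ in atTop, cN G x ≤ (δ + ε) * x := by
  filter_upwards [eventually_ge_atTop A₀, eventually_ge_atTop ((2 * A₀ + 1) / ε)] with x hx hx2
  have hA0 : 0 < A₀ := by linarith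
  have hx0 : 0 < x := by linarith
  obtain ⟨k, hk1, hk2⟩ := exists_nat_pow_near (x := x / A₀) (y := 2) ((one_le_div hA0).2 hx) one_lt_two
  have h2k : (0 : ℝ) < 2 ^ k := by positivity
  rw [le_div_iff₀ hA0] at hk1
  rw [div_lt_iff₀ hA0, pow_succ] at hk2
  have hy1 : A₀ ≤ x / 2 ^ k := by
    rw [le_div_iff₀ h2k]
    linarith
  have hy2 : x / 2 ^ k ≤ 2 * A₀ := by
    rw [div_le_iff₀ h2k]
    linarith
  have e : 2 ^ k * (x / 2 ^ k) = x := by field_simp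
  have h3 := cL_dyadic hδ (hA.trans hy1) (fun A hA => h A (hy1.trans hA)) k
  rw [e] at h3
  have h4 : cL G (x / 2 ^ k) ≤ 2 * A₀ := (cL_le_cN _ _).trans ((cN_le _ (by positivity)).trans hy2)
  have h5 := cN_le_cL G x
  rw [div_le_iff₀ hε] at hx2
  linarith

theorem fd_le_card {G : Set ℤ} {A : ℝ} (hA : 0 < A) : fd G A ≤ ({n : ℤ | 0 < n ∧ (n : ℝ) ≤ 2 * A ∧ n ∈ G}.ncard : ℝ) / A := by
  unfold fd
  refine div_le_div_of_nonneg_right ?_ hA.le
  have h1 : {n : ℤ | A ≤ n ∧ (n : ℝ) < 2 * A ∧ n ∈ G} ⊆ {n : ℤ | 0 < n ∧ (n : ℝ) ≤ 2 * A ∧ n ∈ G} := by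
    rintro n ⟨a1, a2, a3⟩
    refine ⟨?_, a2.le, a3⟩
    have : (0 : ℝ) < n := by linarith
    exact_mod_cast this
  have h2 : {n : ℤ | 0 < n ∧ (n : ℝ) ≤ 2 * A ∧ n ∈ G}.Finite := by
    refine (finite_cN Set.univ (2 * A)).subset ?_
    rintro n ⟨a1, a2, a3⟩
    exact ⟨Set.mem_univ n, a1, a2⟩
  exact_mod_cast Set.ncard_le_ncard h1 h2

/-- short paths -/
theorem small_of {d m : ℕ} {r : ℤ → ℤ} {κ η θ C : ℝ} (hθ : 0 < θ) (hκ : κ = 1 - η - 4 * θ) (hκ0 : 0 < κ) (hC : 0 < C)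
    (card : ∀ (a : ℤ) (x z : ℝ), 2 ≤ x → 1 ≤ z →
      ({n : ℤ | 0 < n ∧ (n : ℝ) ≤ x ∧ n ∈ Pz d m r a z}.ncard : ℝ) ≤ C * Real.log x ^ 4 * x * z ^ (η - 1))
    (fdrec : ∀ n : ℕ, ∃ C₂ K U₀ : ℝ, 0 < C₂ ∧ 0 < K ∧ 0 < U₀ ∧ ∀ (G : Set ℤ) (Z : ℝ), 1 ≤ Z → TInv d m r G Z → ∀ u₀ : ℝ, U₀ ≤ u₀ →
      K * Z ^ 2 ≤ Real.exp (u₀ / 4) → ∀ D : ℝ, 0 ≤ D → (∀ u : ℝ, u₀ / 2 ≤ u → u ≤ u₀ → fd G (Real.exp u) ≤ D) →
      ∀ u : ℝ, u₀ / 2 ≤ u → fd G (Real.exp u) ≤ D + C₂ * (u₀ ^ n)⁻¹) :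
    ∃ C' : ℝ, 0 < C' ∧ ∀ (a : ℤ) (z ε : ℝ), 1 ≤ a → 1 ≤ z → 0 < ε → ∀ᶠ x : ℝ in atTop,
      cN (Sz d m r a z (Real.exp (z ^ θ))) x ≤ (C' * z ^ (-κ) + ε) * x := by
  obtain ⟨n, hn⟩ : ∃ n : ℕ, κ / θ ≤ n := exists_nat_ge _
  rw [div_le_iff₀ hθ] at hn
  obtain ⟨C₂, K, U₀, hC₂, hK, hU₀, hrec⟩ := fdrec n
  obtain ⟨Z₁, hZ₁1, hZ₁⟩ := grow hθ hκ0
  have ht : Tendsto (fun z : ℝ => z ^ θ) atTop atTop := tendsto_rpow_atTop hθ
  obtain ⟨Z₂, hZ₂⟩ := (ht.eventually_ge_atTop (max U₀ K)).exists_forall_of_atTop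
  set Z := max Z₁ Z₂ with hZdef
  have hZ1 : 1 ≤ Z := hZ₁1.trans (le_max_left _ _)
  have key : ∀ (a : ℤ) (z ε : ℝ), Z ≤ z → 0 < ε → ∀ᶠ x : ℝ in atTop,
      cN (Sz d m r a z (Real.exp (z ^ θ))) x ≤ ((2 * C * 17 ^ 4 + C₂) * z ^ (-κ) + ε) * x := by
    intro a z ε hz hε
    have hz1 : 1 ≤ z := hZ1.trans hz
    have hz0 : 0 < z := by linarith
    have hw1 : 1 ≤ z ^ θ := Real.one_le_rpow hz1 hθ.le
    have hw := hZ₂ z ((le_max_right _ _).trans hz)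
    have hwU : U₀ ≤ z ^ θ := (le_max_left _ _).trans hw
    have hwK : K ≤ z ^ θ := (le_max_right _ _).trans hw
    have hY := hZ₁ z ((le_max_left _ _).trans hz)
    have hzY : z ≤ Real.exp (z ^ θ) := by
      refine le_trans ?_ hY
      refine le_mul_of_one_le_left hz0.le (le_trans ?_ (le_max_left _ _))
      norm_num
    set w := z ^ θ with hwdef
    have hYone : 1 ≤ Real.exp w := Real.one_le_exp (by linarith)
    have hzκ : 0 < z ^ (-κ) := Real.rpow_pos_of_pos hz0 _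
    have hfd : ∀ u : ℝ, 16 * w / 2 ≤ u → fd (Sz d m r a z (Real.exp w)) (Real.exp u) ≤ (2 * C * 17 ^ 4 + C₂) * z ^ (-κ) := by
      intro u hu
      have h1 := hrec (Sz d m r a z (Real.exp w)) (Real.exp w) hYone (tinv_Sz hzY) (16 * w) (by linarith) (by
        have h2 : K ≤ Real.exp w := hwK.trans (by linarith [Real.add_one_le_exp w])
        have h3 : Real.exp (16 * w / 4) = Real.exp w * Real.exp w * Real.exp w ^ 2 := by
          rw [sq, ← Real.exp_add, ← Real.exp_add]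
          congr 1
          ring
        rw [h3]
        have h4 : K ≤ Real.exp w * Real.exp w := by nlinarith
        exact mul_le_mul_of_nonneg_right h4 (by positivity)) (2 * C * 17 ^ 4 * z ^ (-κ)) (by positivity) (by
        intro v hv1 hv2
        have hv0 : 0 ≤ v := by linarith
        have hev : 1 ≤ Real.exp v := Real.one_le_exp hv0
        refine (fd_le_card (Real.exp_pos v)).trans ?_
        rw [div_le_iff₀ (Real.exp_pos v)]
        have h5 : ({n : ℤ | 0 < n ∧ (n : ℝ) ≤ 2 * Real.exp v ∧ n ∈ Sz d m r a z (Real.exp w)}.ncard : ℝ) ≤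
            ({n : ℤ | 0 < n ∧ (n : ℝ) ≤ 2 * Real.exp v ∧ n ∈ Pz d m r a z}.ncard : ℝ) := by
          have h6 : {n : ℤ | 0 < n ∧ (n : ℝ) ≤ 2 * Real.exp v ∧ n ∈ Sz d m r a z (Real.exp w)} ⊆
              {n : ℤ | 0 < n ∧ (n : ℝ) ≤ 2 * Real.exp v ∧ n ∈ Pz d m r a z} := by
            rintro n ⟨a1, a2, t, ht, htz, -⟩
            exact ⟨a1, a2, t, ht, htz⟩
          have h7 : {n : ℤ | 0 < n ∧ (n : ℝ) ≤ 2 * Real.exp v ∧ n ∈ Pz d m r a z}.Finite := by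
            refine (finite_cN Set.univ (2 * Real.exp v)).subset ?_
            rintro n ⟨a1, a2, a3⟩
            exact ⟨Set.mem_univ n, a1, a2⟩
          exact_mod_cast Set.ncard_le_ncard h6 h7
        have h8 := card a (2 * Real.exp v) z (by linarith) hz1
        have h9 : Real.log (2 * Real.exp v) = Real.log 2 + v := by
          rw [Real.log_mul two_ne_zero (Real.exp_pos v).ne', Real.log_exp]
        have h10 : 0 ≤ Real.log (2 * Real.exp v) ∧ Real.log (2 * Real.exp v) ≤ 17 * w := by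
          have h11 := Real.log_two_lt_d9
          have h12 := Real.log_two_gt_d9
          rw [h9]
          constructor <;> linarith
        have h13 : Real.log (2 * Real.exp v) ^ 4 ≤ (17 * w) ^ 4 := pow_le_pow_left₀ h10.1 h10.2 4
        have h14 : 0 < z ^ (η - 1) := Real.rpow_pos_of_pos hz0 _
        have h15 : w ^ 4 * z ^ (η - 1) = z ^ (-κ) := by
          rw [hwdef, ← Real.rpow_natCast (z ^ θ) 4, ← Real.rpow_mul hz0.le, ← Real.rpow_add hz0]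
          congr 1
          rw [hκ]
          push_cast
          ring
        calc _ ≤ C * Real.log (2 * Real.exp v) ^ 4 * (2 * Real.exp v) * z ^ (η - 1) := h5.trans h8
          _ ≤ C * (17 * w) ^ 4 * (2 * Real.exp v) * z ^ (η - 1) := by
              refine mul_le_mul_of_nonneg_right (mul_le_mul_of_nonneg_right (mul_le_mul_of_nonneg_left h13 hC.le) ?_) h14.le
              positivity
          _ = 2 * C * 17 ^ 4 * (w ^ 4 * z ^ (η - 1)) * Real.exp v := by ring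
          _ = 2 * C * 17 ^ 4 * z ^ (-κ) * Real.exp v := by rw [h15]) u hu
      refine h1.trans ?_
      have h16 : ((16 * w) ^ n)⁻¹ ≤ z ^ (-κ) := by
        rw [Real.rpow_neg hz0.le]
        refine inv_anti₀ (Real.rpow_pos_of_pos hz0 _) ?_
        calc z ^ κ ≤ z ^ (θ * n) := Real.rpow_le_rpow_of_exponent_le hz1 (by linarith)
          _ = w ^ n := by rw [hwdef, Real.rpow_mul hz0.le, Real.rpow_natCast]
          _ ≤ (16 * w) ^ n := pow_le_pow_left₀ (by linarith) (by linarith) n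
      have h17 := mul_le_mul_of_nonneg_left h16 hC₂.le
      linarith
    refine cN_of_fd (A₀ := Real.exp (16 * w / 2)) (by positivity) (Real.one_le_exp (by linarith)) ?_ hε
    intro A hA
    have hA0 : 0 < A := lt_of_lt_of_le (Real.exp_pos _) hA
    have h18 := hfd (Real.log A) ((Real.le_log_iff_exp_le hA0).2 hA)
    rwa [Real.exp_log hA0] at h18
  refine ⟨max (2 * C * 17 ^ 4 + C₂) (Z ^ κ), lt_of_lt_of_le (by positivity : 0 < 2 * C * 17 ^ 4 + C₂) (le_max_left _ _), fun a z ε ha hz hε => ?_⟩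
  have hz0 : 0 < z := by linarith
  have hZ0 : 0 < Z := by linarith
  have hzκ : 0 < z ^ (-κ) := Real.rpow_pos_of_pos hz0 _
  rcases le_or_gt Z z with hzZ | hzZ
  · filter_upwards [key a z ε hzZ hε, eventually_ge_atTop 0] with x h3 hx
    refine h3.trans (mul_le_mul_of_nonneg_right ?_ hx)
    have := mul_le_mul_of_nonneg_right (le_max_left (2 * C * 17 ^ 4 + C₂) (Z ^ κ)) hzκ.le
    linarith
  · filter_upwards [eventually_ge_atTop 0] with x hx
    refine (cN_le _ hx).trans ?_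
    have h3 : 1 ≤ Z ^ κ * z ^ (-κ) := by
      rw [Real.rpow_neg hz0.le, ← div_eq_mul_inv, le_div_iff₀ (Real.rpow_pos_of_pos hz0 _), one_mul]
      exact Real.rpow_le_rpow hz0.le hzZ.le hκ0.le
    have h4 := mul_le_mul_of_nonneg_right (le_max_right (2 * C * 17 ^ 4 + C₂) (Z ^ κ)) hzκ.le
    have h5 : 1 ≤ max (2 * C * 17 ^ 4 + C₂) (Z ^ κ) * z ^ (-κ) + ε := by linarith
    nlinarith

/-- **long paths**, from the count and the recursion -/
theorem path_tail_of {d m : ℕ} {r : ℤ → ℤ} {κ η θ C : ℝ} (hθ : 0 < θ) (hκ : κ = 1 - η - 4 * θ) (hκ0 : 0 < κ) (hC : 0 < C)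
    (card : ∀ (a : ℤ) (x z : ℝ), 2 ≤ x → 1 ≤ z →
      ({n : ℤ | 0 < n ∧ (n : ℝ) ≤ x ∧ n ∈ Pz d m r a z}.ncard : ℝ) ≤ C * Real.log x ^ 4 * x * z ^ (η - 1))
    (fdrec : ∀ n : ℕ, ∃ C₂ K U₀ : ℝ, 0 < C₂ ∧ 0 < K ∧ 0 < U₀ ∧ ∀ (G : Set ℤ) (Z : ℝ), 1 ≤ Z → TInv d m r G Z → ∀ u₀ : ℝ, U₀ ≤ u₀ →
      K * Z ^ 2 ≤ Real.exp (u₀ / 4) → ∀ D : ℝ, 0 ≤ D → (∀ u : ℝ, u₀ / 2 ≤ u → u ≤ u₀ → fd G (Real.exp u) ≤ D) →
      ∀ u : ℝ, u₀ / 2 ≤ u → fd G (Real.exp u) ≤ D + C₂ * (u₀ ^ n)⁻¹) :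
    ∃ C' : ℝ, 0 < C' ∧ ∀ (a : ℤ) (z ε : ℝ), 1 ≤ a → 1 ≤ z → 0 < ε → ∀ᶠ x : ℝ in atTop,
      cN (Pz d m r a z) x ≤ (C' * z ^ (-κ) + ε) * x := by
  obtain ⟨C₁, hC₁, h₁⟩ := small_of hθ hκ hκ0 hC card fdrec
  exact tail_of hκ0 hθ hC₁ h₁

end Pool.Agent.Helper5.PD
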