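import Pool.Agent.Helper28.POSB.Basins

/-!
# Two-sided size of the predecessor sets: long paths, from short paths
-/

set_option autoImplicit false

namespace Pool.Agent.Helper5.PD

open Pool.Agent.Helper68.Moeller Pool.Agent.Helper91 Pool.Agent.Helper8 Pool.Agent.Helper8.ND Pool.Agent.Helper28 Filter
  Topology

/-- the integers with a path to `a` above `z` -/
def Pz (d m : ℕ) (r : ℤ → ℤ) (a : ℤ) (z : ℝ) : Set ℤ := {n : ℤ | ∃ t : ℕ, (T d m r)^[t] n = a ∧ ∀ i ≤ t, z < ((T d m r)^[i] n : ℝ)}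

/-- the integers with a path to `a` above `z` with a point `≤ Y` -/
def Sz (d m : ℕ) (r : ℤ → ℤ) (a : ℤ) (z Y : ℝ) : Set ℤ :=
  {n : ℤ | ∃ t : ℕ, (T d m r)^[t] n = a ∧ (∀ i ≤ t, z < ((T d m r)^[i] n : ℝ)) ∧ ∃ i ≤ t, ((T d m r)^[i] n : ℝ) ≤ Y}

theorem split {d m : ℕ} {r : ℤ → ℤ} {a : ℤ} {z Y : ℝ} : Pz d m r a z ⊆ Sz d m r a z Y ∪ Pz d m r a Y := by
  rintro n ⟨t, ht, hz⟩
  by_cases h : ∃ i ≤ t, ((T d m r)^[i] n : ℝ) ≤ Y
  · exact Or.inl ⟨t, ht, hz, h⟩
  · push Not at h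
    exact Or.inr ⟨t, ht, h⟩

theorem empty_of_le {d m : ℕ} {r : ℤ → ℤ} {a : ℤ} {z : ℝ} (h : (a : ℝ) ≤ z) : Pz d m r a z = ∅ := by
  ext n
  constructor
  · rintro ⟨t, ht, hz⟩
    have h2 := hz t le_rfl
    rw [ht] at h2
    exact absurd h (not_le.2 h2)
  · exact fun h => h.elim

/-- the thresholds grow -/
theorem grow {θ κ : ℝ} (hθ : 0 < θ) (hκ : 0 < κ) : ∃ Z : ℝ, 1 ≤ Z ∧ ∀ z : ℝ, Z ≤ z → max 2 (2 ^ (1 / κ)) * z ≤ Real.exp (z ^ θ) := by
  have h1 : Tendsto (fun z : ℝ => Real.exp (z ^ θ) / z) atTop atTop := by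
    have h2 : Tendsto (fun u : ℝ => Real.exp u / u ^ (1 / θ)) atTop atTop := tendsto_exp_div_rpow_atTop (1 / θ)
    have h3 : Tendsto (fun z : ℝ => z ^ θ) atTop atTop := tendsto_rpow_atTop hθ
    refine (h2.comp h3).congr' ?_
    filter_upwards [eventually_gt_atTop 0] with z hz
    simp only [Function.comp_apply]
    rw [← Real.rpow_mul hz.le, mul_one_div_cancel hθ.ne', Real.rpow_one]
  obtain ⟨Z, hZ⟩ := (h1.eventually_ge_atTop (max 2 (2 ^ (1 / κ)))).exists_forall_of_atTop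
  refine ⟨max 1 Z, le_max_left _ _, fun z hz => ?_⟩
  have hz0 : 0 < z := by linarith [le_max_left 1 Z]
  exact (le_div_iff₀ hz0).1 (hZ z ((le_max_right 1 Z).trans hz))

/-- long paths, from short paths -/
theorem tail_of {d m : ℕ} {r : ℤ → ℤ} {κ θ C : ℝ} (hκ : 0 < κ) (hθ : 0 < θ) (hC : 0 < C)
    (h : ∀ (a : ℤ) (z ε : ℝ), 1 ≤ a → 1 ≤ z → 0 < ε → ∀ᶠ x : ℝ in atTop,
      cN (Sz d m r a z (Real.exp (z ^ θ))) x ≤ (C * z ^ (-κ) + ε) * x) :
    ∃ C' : ℝ, 0 < C' ∧ ∀ (a : ℤ) (z ε : ℝ), 1 ≤ a → 1 ≤ z → 0 < ε → ∀ᶠ x : ℝ in atTop,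
      cN (Pz d m r a z) x ≤ (C' * z ^ (-κ) + ε) * x := by
  obtain ⟨Z, hZ1, hZ⟩ := grow hθ hκ
  have key : ∀ k : ℕ, ∀ (a : ℤ) (z ε : ℝ), 1 ≤ a → Z ≤ z → 0 < ε → (a : ℝ) ≤ 2 ^ k * z → ∀ᶠ x : ℝ in atTop,
      cN (Pz d m r a z) x ≤ (2 * C * z ^ (-κ) + ε) * x := by
    intro k
    induction k with
    | zero =>
      intro a z ε ha hz hε haz
      rw [pow_zero, one_mul] at haz
      filter_upwards [eventually_ge_atTop 0] with x hx
      have hz0 : 0 < z := by linarith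
      have h2 : cN (Pz d m r a z) x = 0 := by
        rw [empty_of_le haz]
        unfold cN
        simp
      rw [h2]
      have h3 : 0 < z ^ (-κ) := Real.rpow_pos_of_pos hz0 _
      positivity
    | succ k ih =>
      intro a z ε ha hz hε haz
      have hz0 : 0 < z := by linarith
      have hz1 : 1 ≤ z := by linarith
      have hY := hZ z hz
      set Y := Real.exp (z ^ θ) with hYdef
      have hY2 : 2 * z ≤ Y := le_trans (mul_le_mul_of_nonneg_right (le_max_left _ _) hz0.le) hY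
      have hYκ : 2 ^ (1 / κ) * z ≤ Y := le_trans (mul_le_mul_of_nonneg_right (le_max_right _ _) hz0.le) hY
      have hpow : 2 * Y ^ (-κ) ≤ z ^ (-κ) := by
        have h2 : (0 : ℝ) < 2 ^ (1 / κ) := Real.rpow_pos_of_pos two_pos _
        have h3 : Y ^ (-κ) ≤ (2 ^ (1 / κ) * z) ^ (-κ) := Real.rpow_le_rpow_of_nonpos (by positivity) hYκ (by linarith)
        have h4 : ((2 : ℝ) ^ (1 / κ) * z) ^ (-κ) = 1 / 2 * z ^ (-κ) := by
          rw [Real.mul_rpow h2.le hz0.le, ← Real.rpow_mul two_pos.le]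
          congr 1
          rw [show 1 / κ * -κ = -1 by field_simp, Real.rpow_neg_one]
          norm_num
        rw [h4] at h3
        linarith
      have h5 := ih a Y (ε / 2) ha (by linarith) (by linarith) (by
        rw [pow_succ] at haz
        have h6 : (0 : ℝ) < 2 ^ k := by positivity
        nlinarith)
      filter_upwards [h a z (ε / 2) ha hz1 (by linarith), h5, eventually_ge_atTop 0] with x h7 h8 hx
      have h9 : cN (Pz d m r a z) x ≤ cN (Sz d m r a z Y) x + cN (Pz d m r a Y) x :=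
        le_trans (POSB.cN_mono (fun n hn _ => split hn) x) (POSB.cN_union_le _ _ x)
      have h10 : 2 * C * Y ^ (-κ) ≤ C * z ^ (-κ) := by nlinarith
      calc cN (Pz d m r a z) x ≤ (C * z ^ (-κ) + ε / 2) * x + (2 * C * Y ^ (-κ) + ε / 2) * x := by linarith
        _ ≤ (C * z ^ (-κ) + ε / 2) * x + (C * z ^ (-κ) + ε / 2) * x := by
            have := mul_le_mul_of_nonneg_right h10 hx
            nlinarith
        _ = (2 * C * z ^ (-κ) + ε) * x := by ring
  refine ⟨max (2 * C) (Z ^ κ), lt_of_lt_of_le (by positivity : 0 < 2 * C) (le_max_left _ _), fun a z ε ha hz hε => ?_⟩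
  have hz0 : 0 < z := by linarith
  have hZ0 : 0 < Z := by linarith
  have hzκ : 0 < z ^ (-κ) := Real.rpow_pos_of_pos hz0 _
  rcases le_or_gt Z z with hzZ | hzZ
  · obtain ⟨k, hk⟩ : ∃ k : ℕ, (a : ℝ) < 2 ^ k := pow_unbounded_of_one_lt _ one_lt_two
    have h2 := key k a z ε ha hzZ hε (by
      have h6 : (0 : ℝ) < 2 ^ k := by positivity
      nlinarith)
    filter_upwards [h2, eventually_ge_atTop 0] with x h3 hx
    refine h3.trans (mul_le_mul_of_nonneg_right ?_ hx)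
    have := mul_le_mul_of_nonneg_right (le_max_left (2 * C) (Z ^ κ)) hzκ.le
    linarith
  · filter_upwards [eventually_ge_atTop 0] with x hx
    refine (cN_le _ hx).trans ?_
    have h3 : 1 ≤ Z ^ κ * z ^ (-κ) := by
      rw [Real.rpow_neg hz0.le, ← div_eq_mul_inv, le_div_iff₀ (Real.rpow_pos_of_pos hz0 _), one_mul]
      exact Real.rpow_le_rpow hz0.le hzZ.le hκ.le
    have h4 := mul_le_mul_of_nonneg_right (le_max_right (2 * C) (Z ^ κ)) hzκ.le
    have h5 : 1 ≤ max (2 * C) (Z ^ κ) * z ^ (-κ) + ε := by linarith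
    nlinarith

end Pool.Agent.Helper5.PD
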